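import Mathlib

set_option autoImplicit false

namespace Pool.Agent.H.MP_db6017_lc

open Filter

def Sol (c : ℕ → Bool) (B : Set ℕ) (k : Bool) : Prop := B.Infinite ∧ ∀ x ∈ B, ∀ y ∈ B, x < y → c (x + y) = k

theorem build {c : ℕ → Bool} {k : Bool} {P : ℕ → Prop}
    (h : ∀ s : Finset ℕ, (∀ x ∈ s, P x) → ∃ y, P y ∧ ∀ x ∈ s, x < y ∧ c (x + y) = k) : ∃ B, Sol c B k ∧ ∀ y ∈ B, P y := by
  obtain ⟨f, g, r⟩ := exists_seq_of_forall_finset_exists P (fun x y => x < y ∧ c (x + y) = k) h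
  have m : StrictMono f := fun _ _ h => (r _ _ h).1
  refine ⟨Set.range f, ⟨Set.infinite_range_of_injective m.injective, ?_⟩, ?_⟩
  · rintro _ ⟨x, rfl⟩ _ ⟨y, rfl⟩ l
    exact (r _ _ (m.lt_iff_lt.1 l)).2
  · rintro _ ⟨x, rfl⟩
    exact g x

theorem buildU {c : ℕ → Bool} {k : Bool} {P : ℕ → Prop} (p : Filter ℕ) [p.NeBot] (hp : p ≤ atTop) (t : ℕ) (a : ∀ᶠ x in p, P (x + t))
    (b : ∀ᶠ x in p, ∀ᶠ y in p, c (x + y + 2 * t) = k) : ∃ B, Sol c B k ∧ ∀ y ∈ B, P y := by
  obtain ⟨B, h, r⟩ := build (c := c) (k := k) (P := fun x => P x ∧ ∀ᶠ y in p, c (x + (y + t)) = k) fun s h => by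
    obtain ⟨y, r, l, m⟩ := (a.and (b.and ((eventually_all_finset s).2 fun x l =>
      ((eventually_gt_atTop x).filter_mono hp).and (h x l).2))).exists
    exact ⟨y + t, ⟨r, l.mono fun z n => by rw [← n]; congr 1; omega⟩, fun x n => ⟨by have := (m x n).1; omega, (m x n).2⟩⟩
  exact ⟨B, h, fun y l => (r y l).1⟩

open Classical in
noncomputable def lm (p : Ultrafilter ℕ) (f : ℕ → Bool) : Bool := decide (∀ᶠ x in p, f x = true)

theorem lm_ev (p : Ultrafilter ℕ) (f : ℕ → Bool) : ∀ᶠ x in p, f x = lm p f := by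
  by_cases h : ∀ᶠ x in p, f x = true
  · simp [lm, h]
  · simpa [lm, h] using Ultrafilter.eventually_not.2 h

theorem lm_eq {p : Ultrafilter ℕ} {f : ℕ → Bool} {k : Bool} (h : ∀ᶠ x in p, f x = k) : lm p f = k :=
  let ⟨_, a, b⟩ := ((lm_ev p f).and h).exists
  a.symm.trans b

theorem lm2 (p : Ultrafilter ℕ) (c : ℕ → Bool) (t : ℕ) :
    ∀ᶠ x in p, ∀ᶠ y in p, c (x + y + 2 * t) = lm p fun x => lm p fun y => c (x + 2 * t + y) :=
  (lm_ev p _).mono fun x a => (lm_ev p fun y => c (x + 2 * t + y)).mono fun y b => by rw [← a, ← b, add_right_comm]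

theorem ex_u {B : Set ℕ} (h : B.Infinite) : ∃ p : Ultrafilter ℕ, ↑p ≤ (atTop : Filter ℕ) ∧ ∀ᶠ x in p, x ∈ B := by
  have : (atTop ⊓ Filter.principal B).NeBot := frequently_iff_neBot.1 (Nat.frequently_atTop_iff_infinite.2 h)
  exact ⟨Ultrafilter.of _, (Ultrafilter.of_le _).trans inf_le_left, (Ultrafilter.of_le _).trans inf_le_right (mem_principal_self B)⟩

theorem ex_ev : ∃ p : Ultrafilter ℕ, ↑p ≤ (atTop : Filter ℕ) ∧ ∀ᶠ x in p, x % 2 = 0 :=
  ex_u (B := {x | x % 2 = 0}) (Set.infinite_of_injective_forall_mem (f := (2 * ·)) (mul_right_injective₀ two_ne_zero) fun _ => by simp)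

def W (F : Finset ℕ → Bool → Prop) (e b : ℕ → Bool) : Prop := ∀ σ k, F σ k → ∀ t, ¬(b t = k ∧ ∀ x ∈ σ, e (x + t) = k)

theorem W.sh {F : Finset ℕ → Bool → Prop} {e b : ℕ → Bool} (h : W F e b) (x : ℕ) : W F (fun v => e (v + x)) fun v => b (v + x) :=
  fun σ k a t ⟨l, r⟩ => h σ k a (t + x) ⟨l, fun y m => add_assoc y t x ▸ r y m⟩

theorem W.lim {F : ℕ → Finset ℕ → Bool → Prop} (U : Ultrafilter ℕ) {e b : ℕ → ℕ → Bool} {s : ℕ} (h : ∀ᶠ n in U, W (F s) (e n) (b n)) :
    W (F s) (fun v => lm U (e · v)) fun v => lm U (b · v) := fun σ k a t ⟨l, r⟩ => by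
  obtain ⟨n, f, g, m⟩ := (h.and ((lm_ev U (b · t)).and ((eventually_all_finset σ).2 fun x _ => lm_ev U (e · (x + t))))).exists
  exact f σ k a t ⟨g.trans l, fun x o => (m x o).trans (r x o)⟩

theorem main (c : ℕ → Bool) (F : ℕ → Finset ℕ → Bool → Prop) (mo : ∀ s s' σ k, s ≤ s' → F s σ k → F s' σ k)
    (hF : ∀ B k, Sol c B k → ∃ s σ, F s σ k ∧ ∀ x ∈ σ, x ∈ B) (h : ∀ k, ∃ B, Sol c B k) :
    ∃ s, ∀ c' : ℕ → Bool, ∃ σ k, F s σ k ∧ ∀ N, ∃ B, Sol c' B k ∧ ∀ y ∈ B, N ≤ y ∧ ∀ x ∈ σ, c' (x + y) = k := by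
  by_contra! n
  choose c' n using n
  obtain ⟨p, p1, p2⟩ := ex_ev
  let E : ℕ → ℕ → Bool := fun s v => lm p fun y => c' s (v + y)
  let D : ℕ → ℕ → Bool := fun s t => lm p fun x => E s (x + 2 * t)
  have w : ∀ s, W (F s) (E s) (D s) := fun s σ k a t ⟨l, r⟩ => by
    obtain ⟨N, n⟩ := n s σ k a
    obtain ⟨B, f, g⟩ := buildU (c := c' s) (k := k) (P := fun y => N ≤ y ∧ ∀ x ∈ σ, c' s (x + y) = k) p p1 t
      ((((eventually_ge_atTop N).filter_mono p1).mono fun x m => by omega).and ((eventually_all_finset σ).2 fun x m =>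
        (lm_ev p fun y => c' s (x + t + y)).mono fun y o => by rw [← r x m, add_comm y, ← add_assoc]; exact o)) (l ▸ lm2 p _ t)
    obtain ⟨y, m, o⟩ := n B f
    obtain ⟨x, o, q⟩ := o (g y m).1
    exact q ((g y m).2 x o)
  choose B hB using h
  choose q q1 q2 using fun k => ex_u (hB k).1
  let a : Bool → ℕ → Bool := fun i u => lm (q i) fun x => lm (q i) fun y => c (x + 2 * u + y)
  have a0 : ∀ k, a k 0 = k := fun k => lm_eq ((q2 k).mono fun x l => lm_eq
    (((q2 k).and ((eventually_gt_atTop x).filter_mono (q1 k))).mono fun y m => (hB k).2 x l y m.1 m.2))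
  have K : ∀ e b, (∀ s, W (F s) e b) → ∀ i t u, a i u = b t → lm (q i) (fun x => e (t + u + x)) ≠ b t := fun e b w i t u l r => by
    obtain ⟨B, f, g⟩ := buildU (c := c) (k := b t) (P := fun y => e (y + t) = b t) (q i) (q1 i) u
      ((lm_ev (q i) fun x => e (t + u + x)).mono fun x m => by rw [← r, ← m]; congr 1; omega) (l ▸ lm2 (q i) c u)
    obtain ⟨s, σ, m, o⟩ := hF B _ f
    exact w s σ _ m t ⟨rfl, fun x l => g x (o x l)⟩
  have U : ∀ s, ∀ᶠ n in hyperfilter ℕ, s ≤ n := fun s => (eventually_ge_atTop s).filter_mono Nat.hyperfilter_le_atTop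
  have cp : ∀ e b : ℕ → ℕ → Bool, (∀ s, W (F s) (e s) (b s)) → ∀ s,
      W (F s) (fun v => lm (hyperfilter ℕ) (e · v)) fun v => lm (hyperfilter ℕ) (b · v) := fun e b w s =>
    W.lim _ ((U s).mono fun n l σ k m => w n σ k (mo _ _ _ _ l m))
  have s2 : ∀ k, ∀ᶠ s in atTop, ∀ e b, W (F s) e b → ¬∀ t ≤ s, b t = k ∧ e (2 * t) = k := fun k => by
    by_contra m
    have : ∀ s, ∃ e b, W (F s) e b ∧ ∀ t ≤ s, b t = k ∧ e (2 * t) = k := fun s => by
      obtain ⟨n, l, m⟩ := frequently_atTop.1 (not_eventually.1 m) s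
      push Not at m
      obtain ⟨e, b, w, m⟩ := m
      exact ⟨e, b, fun σ k o => w σ k (mo _ _ _ _ l o), fun t o => m t (o.trans l)⟩
    choose e b w m using this
    have f : ∀ t, lm (hyperfilter ℕ) (b · t) = k := fun t => lm_eq ((U t).mono fun s l => (m s t l).1)
    have g : ∀ t, t % 2 = 0 → lm (hyperfilter ℕ) (e · t) = k := fun t o => lm_eq ((U t).mono fun s l => by
      rw [show t = 2 * (t / 2) by omega]; exact (m s _ (by omega)).2)
    by_cases o : ∀ᶠ x in q k, x % 2 = 0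
    · exact K _ _ (cp e b w) k 0 0 ((a0 k).trans (f 0).symm) ((lm_eq (o.mono fun x l => g _ (by omega))).trans (f 0).symm)
    · exact K _ _ (cp e b w) k 1 0 ((a0 k).trans (f 1).symm)
        ((lm_eq ((Ultrafilter.eventually_not.2 o).mono fun x l => g _ (by omega))).trans (f 1).symm)
  have s3 : ∀ k, ∃ e b, (∀ s, W (F s) e b) ∧ b 0 = k ∧ b 1 = !k := fun k => by
    have : ∀ s, ∃ e b, W (F s) e b ∧ b 0 = k ∧ b 1 = !k := fun s => by
      obtain ⟨n, l, m1, m2⟩ := ((eventually_ge_atTop s).and ((s2 k).and (s2 !k))).exists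
      suffices ∃ t, D n t = k ∧ D n (t + 1) = !k from this.elim fun t m =>
        ⟨(E n <| · + t), (D n <| · + t), fun σ k o => (w n).sh t σ k (mo _ _ _ _ l o), by simpa [add_comm] using m⟩
      by_contra! r
      obtain ⟨j, T, m, o⟩ : ∃ j T, (∀ e b, W (F n) e b → ¬∀ t ≤ n, b t = j ∧ e (2 * t) = j) ∧ ∀ t, T ≤ t → D n t = j := by
        by_cases o : ∃ T, D n T = k
        · obtain ⟨T, o⟩ := o
          exact ⟨k, T, m1, fun t l => Nat.le_induction o (fun t _ g => by simpa using r t g) t l⟩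
        · exact ⟨!k, 0, m2, fun t _ => Bool.eq_not.2 fun g => o ⟨t, g⟩⟩
      obtain ⟨x, f⟩ := ((eventually_all_finite (Set.finite_Iic n)).2 fun t _ => lm_ev p fun x => E n (x + 2 * (T + t))).exists
      exact m _ _ ((w n).sh (x + 2 * T)) fun t l => ⟨o _ (by omega), by
        rw [← o (T + t) (by omega)]; exact Eq.trans (by congr 1; omega) (f t l)⟩
    choose e b w m using this
    exact ⟨_, _, cp e b w, lm_eq (.of_forall fun s => (m s).1), lm_eq (.of_forall fun s => (m s).2)⟩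
  have s4 : ∀ i u, a i u = i := fun i u => by
    induction u with
    | zero => exact a0 i
    | succ u h =>
      by_contra r
      obtain ⟨e, b, w, f, g⟩ := s3 (!i)
      have := K e b w i 1 u (by simp [h, g])
      have := K e b w i 0 (u + 1) (by simpa [f] using Bool.eq_not.2 r)
      rw [zero_add, add_comm u] at this
      simp_all
  have R : ∀ e b, (∀ s, W (F s) e b) → ∀ t u, ∀ᶠ x in q (b t), b (t + u + x) = b t := fun e b w t u => by
    have f : ∀ v, lm (q (b t)) (fun x => e (v + t + x)) = !b t := fun v => Bool.eq_not.2 (add_comm t v ▸ K e b w _ t v (s4 ..))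
    have := K _ _ (fun s => (W.lim (q (b t)) (.of_forall fun x => (w s).sh x)).sh t) (!b t) u 0
    refine (lm_ev _ fun x => b (t + u + x)).mono fun x l => l.trans ?_
    rw [add_comm t]
    by_contra r
    exact this ((a0 _).trans (Bool.eq_not.2 r).symm) ((lm_eq (.of_forall fun x => f _)).trans (Bool.eq_not.2 r).symm)
  obtain ⟨e, b, w, f, g⟩ := s3 true
  have : ∀ s, ∃ y, b y = true ∧ ∀ t ≤ s, b (t + 1 + y) = false := fun s => by
    obtain ⟨x, l⟩ := ((eventually_all_finite (Set.finite_Iic s)).2 fun u _ => R e b w 1 u).exists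
    refine ⟨Nat.findGreatest (b · = true) x, Nat.findGreatest_spec (P := (b · = true)) x.zero_le f, fun t m => ?_⟩
    have := Nat.findGreatest_le (P := (b · = true)) x
    by_cases o : t + 1 + Nat.findGreatest (b · = true) x ≤ x
    · exact Bool.eq_false_iff.2 (Nat.findGreatest_is_greatest (P := (b · = true)) (by omega) o)
    · rw [← show b 1 = false from g, ← l (t + Nat.findGreatest (b · = true) x - x) (by simp; omega)]
      congr 1
      omega
  choose y f g using this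
  obtain ⟨x, l, m⟩ := ((R _ _ (cp _ _ fun s => (w s).sh (y s)) 0 0).and ((eventually_ge_atTop 1).filter_mono (q1 _))).exists
  exact Bool.false_ne_true ((lm_eq ((U x).mono fun s o => by rw [← g s (x - 1) (by omega)]; congr 1; omega)).symm.trans
    (l.trans (lm_eq (.of_forall fun s => by simpa using f s))))

end Pool.Agent.H.MP_db6017_lc
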