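import Pool.Agent.H.MP_db6017_lc.A

set_option autoImplicit false

namespace Pool.Agent.H.MP_db6017_lc

open Filter

def T (i : Bool) (d : ℕ → ℕ → Bool) : Prop := ∃ n, ∀ x, n ≤ x → ∃ N, ∀ y, N ≤ y → d x y = !i

def Ag (s : ℕ) (d d' : ℕ → ℕ → Bool) : Prop := ∀ x y, y < s → d' x y = d x y

def Th (c : ℕ → Bool) (k : Bool) : Prop := ∀ L, ∃ m, L ≤ m ∧ m % 2 = 0 ∧ ∀ t ≤ L, c (m + 2 * t) = k

theorem th_of {c : ℕ → Bool} {k : Bool} (h : ¬∃ B, Sol c B !k) : Th c k := fun L => by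
  obtain ⟨p, a, b⟩ := ex_ev
  have : ∀ t, ∀ᶠ x in p, ∀ᶠ y in p, c (x + y + 2 * t) = k := fun t => by
    by_cases r : (lm p fun x => lm p fun y => c (x + 2 * t + y)) = k
    · exact r ▸ lm2 p c t
    · obtain ⟨B, f, -⟩ := buildU (P := fun _ => True) p a t (by simp) (Bool.eq_not.2 r ▸ lm2 p c t)
      exact absurd ⟨B, f⟩ h
  obtain ⟨x, f, g⟩ := (b.and ((eventually_all_finite (Set.finite_Iic L)).2 fun t _ => this t)).exists
  obtain ⟨y, l, m, o⟩ := (b.and (((eventually_ge_atTop L).filter_mono a).and ((eventually_all_finite (Set.finite_Iic L)).2 g))).exists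
  exact ⟨x + y, by omega, by omega, o⟩

theorem Th.sol {c : ℕ → Bool} {k : Bool} (h : Th c k) (M : ℕ) :
    ∃ B, Sol c B k ∧ ∀ y ∈ B, M ≤ y ∧ y % 2 = 0 ∧ ∀ x ≤ M, x % 2 = 0 → c (x + y) = k :=
  build fun s a => by
    obtain ⟨m, f, g, l⟩ := h (M + s.sup id + 1)
    have : ∀ x ≤ M + s.sup id, x % 2 = 0 → c (x + m) = k := fun x o r => by
      rw [← l (x / 2) (by omega)]; congr 1; omega
    refine ⟨m, ⟨by omega, g, fun x o => this x (by omega)⟩, fun x o => ?_⟩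
    have r : x ≤ s.sup id := Finset.le_sup (f := id) o
    exact ⟨by omega, this x (by omega) (a x o).2.1⟩

theorem outer (Φ : (ℕ → ℕ → Bool) → ℕ → Bool) (hΦ : ∀ d n, ∃ s, ∀ d', Ag s d d' → ∀ m < n, Φ d' m = Φ d m)
    (hΨ : ∀ i d, T i d → ∀ B k, Sol (Φ d) B k → ∃ s, ∀ d', T (!i) d' → Ag s d d' → ∀ B' k', Sol (Φ d') B' k' → ¬∀ x < s, (x ∈ B' ↔ x ∈ B)) :
    False := by
  classical
  have ne : ∀ i d, T i d → ∀ B k, Sol (Φ d) B k → ∃ s, ∀ d', T (!i) d' → Ag s d d' →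
      ¬∃ B', Sol (Φ d') B' k ∧ ∀ y ∈ B', s ≤ y ∧ ∀ x ∈ B, x < s → Φ d' (x + y) = k := fun i d a B k b => by
    obtain ⟨s, f⟩ := hΨ i d a B k b
    obtain ⟨u, g⟩ := hΦ d (2 * s)
    refine ⟨s + u, fun d' l m ⟨B', o, r⟩ => f d' l (fun x y _ => m x y (by omega)) ({x ∈ B | x < s} ∪ B') k
      ⟨o.1.mono Set.subset_union_right, ?_⟩ fun x v => ⟨fun w => w.elim And.left fun w => by have := (r x w).1; omega, fun w => .inl ⟨w, v⟩⟩⟩
    rintro x (v | v) y (w | w) z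
    · rw [g d' (fun x y _ => m x y (by omega)) _ (by have := v.2; have := w.2; omega), b.2 x v.1 y w.1 z]
    · exact (r y w).2 x v.1 (by have := v.2; omega)
    · have := (r x v).1
      have := w.2
      omega
    · exact o.2 x v y w z
  have one : ∀ i d, T i d → ¬∀ k, ∃ B, Sol (Φ d) B k := fun i d a h => by
    choose s f using ne i d a
    obtain ⟨u, g⟩ := main (Φ d) (fun u σ k => ∃ B b, s B k b ≤ u ∧ σ = (Finset.range (s B k b)).filter (· ∈ B))
      (fun _ _ _ _ l ⟨B, b, m, o⟩ => ⟨B, b, m.trans l, o⟩) (fun B k b => ⟨_, _, ⟨B, b, le_rfl, rfl⟩, fun x l => (Finset.mem_filter.1 l).2⟩) h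
    obtain ⟨_, k, ⟨B, b, l, rfl⟩, m⟩ := g (Φ fun x y => if y < u then d x y else i)
    exact f B k b _ ⟨0, fun x _ => ⟨u, fun y o => by simp [o.not_gt]⟩⟩ (fun x y o => if_pos (by omega))
      ((m _).imp fun B' o => ⟨o.1, fun y r => ⟨(o.2 y r).1, fun x v w => (o.2 y r).2 x (by simp [v, w])⟩⟩)
  have : ∀ (d : ℕ → ℕ → Bool) (s n : ℕ) k, ∃ d', Ag s d d' ∧ (∀ x < n, ∀ y, s ≤ y → d' x y = true) ∧ Th (Φ d') k := fun d s n k => by
    by_contra! h
    have t : ∀ i d', T i d' → Ag s d d' → (∀ x < n, ∀ y, s ≤ y → d' x y = true) → Th (Φ d') !k := fun i d' a b c => by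
      obtain ⟨j, f⟩ := not_forall.1 (one i d' a)
      replace f := th_of (k := !j) (by simpa using f)
      rwa [show (!j) = !k from Bool.eq_not.2 fun g => h d' b c (g ▸ f)] at f
    have a : T false fun x y => if y < s then d x y else true := ⟨0, fun x _ => ⟨s, fun y o => by simp [o.not_gt]⟩⟩
    obtain ⟨B, b, c⟩ := (t _ _ a (fun x y o => if_pos o) fun x _ y o => if_neg o.not_gt).sol 0
    obtain ⟨u, f⟩ := ne _ _ a B _ b
    have g : T true fun x y => if y < s then d x y else decide (y < u ∨ x < n) :=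
      ⟨n, fun x l => ⟨s + u, fun y o => by simp [show ¬y < s by omega, show ¬y < u by omega, l]⟩⟩
    obtain ⟨B', l, m⟩ := (t _ _ g (fun x y o => if_pos o) fun x l y o => by simp [o.not_gt, l]).sol u
    exact f _ g (fun x y o => by simp [o]) ⟨B', l, fun y o => ⟨(m y o).1, fun x v w => (m y o).2.2 x w.le (c x v).2.1⟩⟩
  have : ∀ (z : (ℕ → ℕ → Bool) × ℕ) (n : ℕ), ∃ w : (ℕ → ℕ → Bool) × ℕ, z.2 < w.2 ∧ Ag z.2 z.1 w.1 ∧ (∀ x < n, ∀ y, z.2 ≤ y → w.1 x y = true) ∧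
      ∀ d, Ag w.2 w.1 d → ∃ m, n ≤ m ∧ m % 2 = 0 ∧ ∀ t ≤ n, Φ d (m + 2 * t) = decide (n % 2 = 0) := fun z n => by
    obtain ⟨d, a, b, c⟩ := this z.1 z.2 n (decide (n % 2 = 0))
    obtain ⟨m, c, f, g⟩ := c n
    obtain ⟨s, l⟩ := hΦ d (m + 2 * n + 1)
    exact ⟨(d, z.2 + s + 1), by simp only; omega, a, b, fun d' o => ⟨m, c, f, fun t r =>
      (l d' (fun x y _ => o x y (by simp only; omega)) _ (by omega)).trans (g t r)⟩⟩
  choose f f1 f2 f3 f4 using this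
  let z : ℕ → (ℕ → ℕ → Bool) × ℕ := fun n => Nat.rec (fun _ _ => true, 0) (fun n z => f z n) n
  have m : StrictMono fun n => (z n).2 := strictMono_nat_of_lt_succ fun n => f1 _ n
  have a : ∀ j j', j ≤ j' → Ag (z j).2 (z j).1 (z j').1 := fun j j' l => Nat.le_induction (fun _ _ _ => rfl)
    (fun n l h x y o => (f2 (z n) n x y (o.trans_le (m.monotone l))).trans (h x y o)) j' l
  have b : ∀ j, Ag (z j).2 (z j).1 fun x y => (z (y + 1)).1 x y := fun j x y o => (le_total j (y + 1)).elim (fun l => a _ _ l x y o)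
    fun l => (a _ _ l x y (m.le_apply (x := y + 1))).symm
  refine one false (fun x y => (z (y + 1)).1 x y) ⟨0, fun x _ => ⟨(z (x + 1)).2, fun y o => ?_⟩⟩ fun k => (Th.sol (fun L => ?_) 0).imp fun _ => And.left
  · have : ∀ j, x + 1 ≤ j → y < (z j).2 → (z j).1 x y = true := fun j l => Nat.le_induction (fun r => absurd r o.not_gt) (fun n l h _ =>
      (lt_or_ge y (z n).2).elim (fun r => (f2 (z n) n x y r).trans (h r)) (f3 (z n) n x l y)) j l
    have r := (le_add_self : y + 1 ≤ x + (y + 1)).trans (m.le_apply (x := x + (y + 1)))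
    exact (b (x + (y + 1)) x y r).trans (this (x + (y + 1)) (by omega) r)
  · obtain ⟨n, l, o⟩ : ∃ n, L ≤ n ∧ decide (n % 2 = 0) = k := by
      cases k
      exacts [⟨2 * L + 1, by omega, by simp⟩, ⟨2 * L, by omega, by simp⟩]
    obtain ⟨u, r, v, w⟩ := f4 (z n) n _ (b (n + 1))
    exact ⟨u, l.trans r, v, fun t s => o ▸ w t (s.trans l)⟩

def pr (p : ℕ → Bool) (k : ℕ) : List Bool := (List.range k).map p

def Maps (W : List Bool × ℕ × Bool → Prop) (p q : ℕ → Bool) : Prop := ∀ n v, (∃ k, W (pr p k, n, v)) ↔ q n = v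

def jn (p q : ℕ → Bool) (n : ℕ) : Bool := if n % 2 = 0 then p (n / 2) else q (n / 2)

def RF (f : ℕ → ℕ → ℕ) (c : ℕ → Bool) : Set (ℕ → Bool) :=
  {h | {n | h n = true}.Infinite ∧ ∃ i, ∀ x y, x < y → h x = true → h y = true → c (f x y) = i}

theorem Maps.loc {W : List Bool × ℕ × Bool → Prop} {p q : ℕ → Bool} (h : Maps W p q) (n : ℕ) :
    ∃ s, ∀ p' q', Maps W p' q' → (∀ m < s, p' m = p m) → ∀ m < n, q' m = q m := by
  choose k a using fun m => (h m _).2 rfl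
  refine ⟨(Finset.range n).sup k, fun p' q' b c m l => (b m _).1 ⟨k m, ?_⟩⟩
  rw [show pr p' (k m) = pr p (k m) from List.map_congr_left fun i o => c i
    ((List.mem_range.1 o).trans_le (Finset.le_sup (Finset.mem_range.2 l)))]
  exact a m

theorem red (f : ℕ → ℕ → ℕ) (E : (ℕ → ℕ → Bool) → ℕ → Bool) (a : ∀ s d d', Ag s d d' → ∀ n < s, E d' n = E d n)
    (b : ∀ i d, T i d → ∀ h : ℕ → Bool, {n | h n = true}.Infinite → ¬∀ x y, x < y → h x = true → h y = true → E d (f x y) = i) :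
    ¬∃ Φ Ψ, ∀ c, ∃ x, Maps Φ c x ∧ ∀ h ∈ RF (· + ·) x, ∃ y ∈ RF f c, Maps Ψ (jn c h) y := fun ⟨Φ, Ψ, h⟩ => by
  classical
  choose G g h using h
  refine outer (fun d => G (E d)) (fun d n => ((g (E d)).loc n).imp fun s l d' m => l _ _ (g _) (a s d d' m)) fun i d t B k c => ?_
  have u : ∀ d B k, Sol (G (E d)) B k → (fun x => decide (x ∈ B)) ∈ RF (· + ·) (G (E d)) := fun d B k c =>
    ⟨by simpa using c.1, k, fun x y l m o => c.2 x (by simpa using m) y (by simpa using o) l⟩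
  obtain ⟨y, ⟨l, j, m⟩, o⟩ := h _ _ (u d B k c)
  obtain ⟨x, r⟩ := l.nonempty
  obtain ⟨z, v, w⟩ := l.exists_gt x
  obtain ⟨s, o⟩ := o.loc (z + 1)
  refine ⟨s + f x z + 1, fun d' t' e B' k' c' n => ?_⟩
  obtain ⟨y', ⟨l', j', m'⟩, o'⟩ := h _ _ (u d' B' k' c')
  replace o := o _ _ o' fun m l => by
    simp only [jn]
    rw [a _ d d' e _ (by omega), decide_eq_decide.2 (n _ (by omega))]
  have := (m' x z w ((o x (by omega)).trans r) ((o z (by omega)).trans v)).symm.trans ((a _ d d' e _ (by omega)).trans (m x z w r v))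
  subst this
  by_cases q : j' = i
  · exact b i d t y l (q ▸ m)
  · exact b _ d' t' y' l' (Bool.eq_not.2 q ▸ m')

end Pool.Agent.H.MP_db6017_lc
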